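import Pool.Agent.Helper2.LD.St1b

/-!
# LD project, module RelNm: adjacency and common neighbours from corresponding names
-/

set_option autoImplicit false

namespace Pool.Agent.Helper62.LD

open Pool.Agent.Helper2.LD

variable {K : Type}

private theorem sameSymm {f g : Fb K} (h : Fb.same f g) : Fb.same g f := by
  cases f <;> cases g <;> simp_all [Fb.same]

private theorem sameTrans {f g h : Fb K} (h1 : Fb.same f g) (h2 : Fb.same g h) : Fb.same f h := by
  cases f <;> cases g <;> cases h <;> simp_all [Fb.same]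

private theorem samePar {f g : Fb K} (h : Fb.same f g) : Fb.same (Fb.par f) (Fb.par g) := by
  cases f <;> cases g <;> simp_all [Fb.same, Fb.par]
  split_ifs <;> simp [Fb.same]

private theorem sameRoot {f g : Fb K} (h : Fb.same f g) : f = Fb.root ↔ g = Fb.root := by
  cases f <;> cases g <;> simp_all [Fb.same]

private theorem gidNone {f : Fb K} : f.gid = none ↔ f = Fb.root := by
  cases f <;> simp [Fb.gid]

private theorem parLf (f : Fb K) (κ : K) (c : Bool) (i : ℕ) : Fb.par f ≠ Fb.lf κ c i := by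
  cases f <;> simp [Fb.par]
  split_ifs <;> simp

private theorem gidPar {f : Fb K} (h : Fb.par f ≠ Fb.root) : (Fb.par f).gid = f.gid := by
  cases f <;> simp_all [Fb.par, Fb.gid]
  split_ifs <;> simp

private theorem eqIff {f g : Fb K} (hg : ∀ κ c i, g ≠ Fb.lf κ c i) :
    f = g ↔ Fb.same f g ∧ f.gid = g.gid := by
  constructor
  · rintro rfl
    refine ⟨?_, rfl⟩
    cases f <;> simp [Fb.same]
  · rintro ⟨h1, h2⟩
    cases f <;> cases g <;> simp_all [Fb.same, Fb.gid]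

/-- Equality with a non-leaf transfers. -/
private theorem eqTr {f f' g g' : Fb K} (hf : Fb.same f f') (hg : Fb.same g g')
    (hl : ∀ κ c i, g ≠ Fb.lf κ c i) (hl' : ∀ κ c i, g' ≠ Fb.lf κ c i)
    (hgid : f.gid = g.gid ↔ f'.gid = g'.gid) : f = g ↔ f' = g' := by
  rw [eqIff hl, eqIff hl', hgid]
  constructor
  · rintro ⟨h1, h2⟩
    exact ⟨sameTrans (sameTrans (sameSymm hf) h1) hg, h2⟩
  · rintro ⟨h1, h2⟩
    exact ⟨sameTrans (sameTrans hf h1) (sameSymm hg), h2⟩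

/-- Gadget equality with a parent transfers. -/
private theorem gidTr {f f' g g' : Fb K} (hf : Fb.same f f') (hg : Fb.same g g')
    (hgid : f.gid = g.gid ↔ f'.gid = g'.gid) :
    f.gid = (Fb.par g).gid ↔ f'.gid = (Fb.par g').gid := by
  by_cases h : Fb.par g = Fb.root
  · have h' : Fb.par g' = Fb.root := (sameRoot (samePar hg)).1 h
    rw [h, h']
    change f.gid = none ↔ f'.gid = none
    rw [gidNone, gidNone]
    exact sameRoot hf
  · have h' : Fb.par g' ≠ Fb.root := fun h2 => h ((sameRoot (samePar hg)).2 h2)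
    rw [gidPar h, gidPar h']
    exact hgid

private theorem okPar {m : ℕ} {code : K → Finset ℕ} {L : Finset K} {f : Fb K}
    (h : Fb.ok m code L f) : Fb.ok m code L (Fb.par f) := by
  cases f <;> simp_all [Fb.par, Fb.ok]
  split_ifs with h1
  · trivial
  · obtain ⟨h2, h3, h4⟩ := h
    refine ⟨h2, ?_, ?_⟩ <;> omega

/-- The explicit predicate. -/
private def cn (f g : Fb K) : Prop :=
  (f ≠ Fb.root ∧ g ≠ Fb.root ∧ Fb.par f = Fb.par g) ∨
  (Fb.par f ≠ Fb.root ∧ g = Fb.par (Fb.par f)) ∨ (Fb.par g ≠ Fb.root ∧ f = Fb.par (Fb.par g))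

private theorem cnIff {m : ℕ} {code : K → Finset ℕ} {L : Finset K} {f g : Fb K} (hne : f ≠ g)
    (hf : Fb.ok m code L f) (hg : Fb.ok m code L g) :
    (∃ x, Fb.ok m code L x ∧ Fb.adj f x ∧ Fb.adj g x) ↔ cn f g := by
  have key : ∀ x : Fb K, Fb.par x ≠ Fb.root → x ≠ Fb.root := by
    rintro x h rfl
    exact h rfl
  constructor
  · rintro ⟨x, _, (⟨h1, h2⟩ | ⟨h1, h2⟩), (⟨h3, h4⟩ | ⟨h3, h4⟩)⟩
    · exact Or.inl ⟨h1, h3, h2.symm.trans h4⟩
    · subst h2
      exact Or.inr (Or.inl ⟨h3, h4⟩)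
    · subst h4
      exact Or.inr (Or.inr ⟨h1, h2⟩)
    · exact absurd (h2.trans h4.symm) hne
  · rintro (⟨h1, h2, h3⟩ | ⟨h1, h2⟩ | ⟨h1, h2⟩)
    · exact ⟨Fb.par f, okPar hf, Or.inl ⟨h1, rfl⟩, Or.inl ⟨h2, h3⟩⟩
    · exact ⟨Fb.par f, okPar hf, Or.inl ⟨key _ h1, rfl⟩, Or.inr ⟨h1, h2⟩⟩
    · exact ⟨Fb.par g, okPar hg, Or.inr ⟨h1, h2⟩, Or.inl ⟨key _ h1, rfl⟩⟩

/-- Module RelNm. -/
theorem pRelNm : StRelNm := by
  intro K m code L L' a b _ ha1 hb1 ha2 hb2 hN
  obtain ⟨h1, h2, h3⟩ := hN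
  have sa : Fb.same a.1 a.2 := h1 a (by simp)
  have sb : Fb.same b.1 b.2 := h1 b (by simp)
  have gab : a.1.gid = b.1.gid ↔ a.2.gid = b.2.gid := h2 a (by simp) b (by simp)
  have gba : b.1.gid = a.1.gid ↔ b.2.gid = a.2.gid := h2 b (by simp) a (by simp)
  have eab : a.1 = b.1 ↔ a.2 = b.2 := h3 a (by simp) b (by simp)
  have ra : a.1 = Fb.root ↔ a.2 = Fb.root := sameRoot sa
  have rb : b.1 = Fb.root ↔ b.2 = Fb.root := sameRoot sb
  have rpa : Fb.par a.1 = Fb.root ↔ Fb.par a.2 = Fb.root := sameRoot (samePar sa)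
  have rpb : Fb.par b.1 = Fb.root ↔ Fb.par b.2 = Fb.root := sameRoot (samePar sb)
  have e1 : b.1 = Fb.par a.1 ↔ b.2 = Fb.par a.2 :=
    eqTr sb (samePar sa) (parLf _) (parLf _) (gidTr sb sa gba)
  have e2 : a.1 = Fb.par b.1 ↔ a.2 = Fb.par b.2 :=
    eqTr sa (samePar sb) (parLf _) (parLf _) (gidTr sa sb gab)
  refine ⟨?_, ?_⟩
  · unfold Fb.adj
    rw [Ne, Ne, Ne, Ne, ra, rb, e1, e2]
  · intro hne
    have hne2 : a.2 ≠ b.2 := fun h => hne (eab.2 h)
    rw [cnIff hne ha1 hb1, cnIff hne2 ha2 hb2]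
    have f1 : b.1 = Fb.par (Fb.par a.1) ↔ b.2 = Fb.par (Fb.par a.2) :=
      eqTr sb (samePar (samePar sa)) (parLf _) (parLf _)
        (gidTr sb (samePar sa) (gidTr sb sa gba))
    have f2 : a.1 = Fb.par (Fb.par b.1) ↔ a.2 = Fb.par (Fb.par b.2) :=
      eqTr sa (samePar (samePar sb)) (parLf _) (parLf _)
        (gidTr sa (samePar sb) (gidTr sa sb gab))
    have g1 : (Fb.par a.1).gid = b.1.gid ↔ (Fb.par a.2).gid = b.2.gid := by
      have h := gidTr sb sa gba
      constructor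
      · intro h'
        exact (h.1 h'.symm).symm
      · intro h'
        exact (h.2 h'.symm).symm
    have f3 : Fb.par a.1 = Fb.par b.1 ↔ Fb.par a.2 = Fb.par b.2 :=
      eqTr (samePar sa) (samePar sb) (parLf _) (parLf _) (gidTr (samePar sa) sb g1)
    unfold cn
    rw [Ne, Ne, Ne, Ne, Ne, Ne, Ne, Ne, ra, rb, rpa, rpb, f1, f2, f3]

end Pool.Agent.Helper62.LD
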